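import Pool.Agent.W95.BK.Stm

/-! Project BK: continuity of `f_* φ` at the points of `ℍ_K`. -/

open Polynomial Topology Filter

namespace Pool.Agent.W55.BK.T1

open Pool.Agent.W95.BK

universe u

open Classical in
lemma part {α ι : Type*} (T : Finset ι) (U : ι → Set α)
    (hU : ∀ i ∈ T, ∀ j ∈ T, i ≠ j → Disjoint (U i) (U j)) (g : α → ℝ) (s : Multiset α)
    (hs : ∀ w ∈ s, ∃ i ∈ T, w ∈ U i) :
    (s.map g).sum = ∑ i ∈ T, ((s.filter (fun w => w ∈ U i)).map g).sum := by
  induction s using Multiset.induction_on with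
  | empty => simp
  | cons w s ih =>
    rw [Multiset.map_cons, Multiset.sum_cons,
      ih (fun v hv => hs v (Multiset.mem_cons_of_mem hv))]
    obtain ⟨i, hi, hwi⟩ := hs w (Multiset.mem_cons_self w s)
    have h1 : ∑ j ∈ T, (if w ∈ U j then g w else 0) = g w := by
      rw [Finset.sum_eq_single i]
      · rw [if_pos hwi]
      · intro j hj hji
        rw [if_neg]
        intro hwj
        exact Set.disjoint_left.1 (hU i hi j hj (Ne.symm hji)) hwi hwj
      · intro h; exact absurd hi h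
    calc g w + ∑ i ∈ T, ((s.filter (fun w => w ∈ U i)).map g).sum
        = ∑ j ∈ T, ((if w ∈ U j then g w else 0) +
            ((s.filter (fun w => w ∈ U j)).map g).sum) := by
          rw [Finset.sum_add_distrib, h1]
      _ = _ := by
          refine Finset.sum_congr rfl fun j _ => ?_
          by_cases hj : w ∈ U j
          · have e := Multiset.filter_cons_of_pos (p := fun w => w ∈ U j) s hj
            rw [e, if_pos hj, Multiset.map_cons, Multiset.sum_cons]
          · have e := Multiset.filter_cons_of_neg (p := fun w => w ∈ U j) s hj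
            rw [e, if_neg hj, zero_add]

open Classical in
lemma part_le {α ι : Type*} (T : Finset ι) (U : ι → Set α)
    (hU : ∀ i ∈ T, ∀ j ∈ T, i ≠ j → Disjoint (U i) (U j)) (s : Multiset α) :
    ∑ i ∈ T, (s.filter (fun w => w ∈ U i)).card ≤ s.card := by
  induction s using Multiset.induction_on with
  | empty => simp
  | cons w s ih =>
    have h1 : ∑ j ∈ T, (if w ∈ U j then 1 else 0) ≤ 1 := by
      by_cases hex : ∃ i ∈ T, w ∈ U i
      · obtain ⟨i, hi, hwi⟩ := hex
        rw [Finset.sum_eq_single i]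
        · rw [if_pos hwi]
        · intro j hj hji
          rw [if_neg]
          intro hwj
          exact Set.disjoint_left.1 (hU i hi j hj (Ne.symm hji)) hwi hwj
        · intro h; exact absurd hi h
      · push Not at hex
        rw [Finset.sum_eq_zero]
        · omega
        · intro j hj
          rw [if_neg (hex j hj)]
    calc ∑ i ∈ T, ((w ::ₘ s).filter (fun w => w ∈ U i)).card
        = ∑ j ∈ T, ((if w ∈ U j then 1 else 0) + (s.filter (fun w => w ∈ U j)).card) := by
          refine Finset.sum_congr rfl fun j _ => ?_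
          by_cases hj : w ∈ U j
          · have e := Multiset.filter_cons_of_pos (p := fun w => w ∈ U j) s hj
            rw [e, if_pos hj, Multiset.card_cons]
            omega
          · have e := Multiset.filter_cons_of_neg (p := fun w => w ∈ U j) s hj
            rw [e, if_neg hj, zero_add]
      _ = ∑ j ∈ T, (if w ∈ U j then 1 else 0) + ∑ j ∈ T, (s.filter (fun w => w ∈ U j)).card :=
          Finset.sum_add_distrib
      _ ≤ 1 + s.card := Nat.add_le_add h1 ih
      _ = (w ::ₘ s).card := by rw [Multiset.card_cons]; omega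

section
variable {K : Type u} [NontriviallyNormedField K] [IsUltrametricDist K] [IsAlgClosed K]

lemma mem_fibre (hACT : S_ACT.{u}) (f : RMap K) (x : BA K) (hx : HK x) (y : P1B K)
    (hy : f.act y = (x : P1B K)) : ∃ z : BA K, HK z ∧ y = (z : P1B K) := by
  classical
  obtain ⟨-, h2, h3, -, -⟩ := hACT K f
  induction y using OnePoint.rec with
  | infty =>
    exfalso
    have h : f.act OnePoint.infty = (if f.Q.coeff f.d = 0 then (OnePoint.infty : P1B K)
      else ((cl (f.P.coeff f.d / f.Q.coeff f.d) : BA K) : P1B K)) := rfl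
    rw [h] at hy
    split_ifs at hy with h0
    · exact OnePoint.infty_ne_coe x hy
    · exact hx _ (OnePoint.coe_injective hy).symm
  | coe z =>
    refine ⟨z, ?_, rfl⟩
    intro a hza
    subst hza
    by_cases h0 : f.Q.eval a = 0
    · rw [h3 a h0] at hy
      exact OnePoint.infty_ne_coe x hy
    · rw [h2 a h0] at hy
      exact hx _ (OnePoint.coe_injective hy).symm

/-- good neighbourhoods of finitely many points of the fibre -/
lemma exists_nbhds (hLDEX : S_LDEX.{u}) (hACT : S_ACT.{u}) (f : RMap K) (x : BA K) (hx : HK x)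
    (T : Finset (P1B K)) (hT : ∀ y ∈ T, f.act y = (x : P1B K)) (V : P1B K → Set (P1B K))
    (hV : ∀ y, V y ∈ 𝓝 y) :
    ∃ U : P1B K → Set (P1B K), (∀ y ∈ T, U y ∈ 𝓝 y ∧ U y ⊆ V y ∧ 1 ≤ localDeg f y) ∧
      ∀ᶠ b in toward (x : P1B K), ∀ y ∈ T, cnt f (U y) b = localDeg f y := by
  have key : ∀ y : P1B K, ∃ U : Set (P1B K), y ∈ T → (U ∈ 𝓝 y ∧ U ⊆ V y ∧ 1 ≤ localDeg f y ∧
      ∀ᶠ b in toward (x : P1B K), cnt f U b = localDeg f y) := by
    intro y
    by_cases hy : y ∈ T
    · obtain ⟨z, hz, rfl⟩ := mem_fibre hACT f x hx y (hT y hy)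
      obtain ⟨m, hm1, hm2, hm3⟩ := hLDEX K f z hz
      obtain ⟨U, hU1, hU2, hU3⟩ := hm2 _ (hV _)
      rw [hT _ hy] at hU3
      exact ⟨U, fun _ => ⟨hU1, hU2, hm3 ▸ hm1, by rw [hm3]; exact hU3⟩⟩
    · exact ⟨∅, fun h => absurd h hy⟩
  choose U hU using key
  refine ⟨U, fun y hy => ⟨(hU y hy).1, (hU y hy).2.1, (hU y hy).2.2.1⟩, ?_⟩
  rw [Filter.eventually_all_finset]
  exact fun y hy => (hU y hy).2.2.2

lemma card_le (hT2 : S_T2.{u}) (hLDEX : S_LDEX.{u}) (hACT : S_ACT.{u}) (hDENSE : S_DENSE.{u})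
    (f : RMap K) (x : BA K) (hx : HK x) (T : Finset (P1B K))
    (hT : ∀ y ∈ T, f.act y = (x : P1B K)) : T.card ≤ f.d := by
  have : T2Space (P1B K) := (hT2 K).2.2.1
  obtain ⟨V, hV1, hV2⟩ := T.finite_toSet.t2_separation
  obtain ⟨U, hU1, hU2⟩ := exists_nbhds hLDEX hACT f x hx T hT V
    (fun y => (hV1 y).2.mem_nhds (hV1 y).1)
  have := hDENSE K (x : P1B K)
  obtain ⟨b, hb⟩ := hU2.exists
  have hdis : ∀ i ∈ T, ∀ j ∈ T, i ≠ j → Disjoint (U i) (U j) := by
    intro i hi j hj hij
    exact Set.disjoint_of_subset (hU1 i hi).2.1 (hU1 j hj).2.1 (hV2 hi hj hij)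
  have h1 := part_le T U hdis (fib f b)
  rw [(hACT K f).2.2.2.2 b] at h1
  calc T.card = ∑ y ∈ T, 1 := by simp
    _ ≤ ∑ y ∈ T, localDeg f y := Finset.sum_le_sum fun y hy => (hU1 y hy).2.2
    _ = ∑ y ∈ T, cnt f (U y) b := Finset.sum_congr rfl fun y hy => (hb y hy).symm
    _ ≤ f.d := h1

lemma fin_fibre (hT2 : S_T2.{u}) (hLDEX : S_LDEX.{u}) (hACT : S_ACT.{u}) (hDENSE : S_DENSE.{u})
    (f : RMap K) (x : BA K) (hx : HK x) : {y : P1B K | f.act y = (x : P1B K)}.Finite := by
  by_contra hinf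
  obtain ⟨T, hT1, hT2'⟩ := Set.Infinite.exists_subset_card_eq hinf (f.d + 1)
  have := card_le hT2 hLDEX hACT hDENSE f x hx T (fun y hy => hT1 hy)
  omega

end

theorem main : S_T2.{u} → S_LDEX.{u} → S_LDU.{u} → S_DENSE.{u} → S_ACTC.{u} → S_ACT.{u} →
    S_AVOID.{u} → S_T1.{u} := by
  intro hT2 hLDEX _ hDENSE hACTC hACT _ K _ _ _ f x hx φ
  have : T2Space (P1B K) := (hT2 K).2.2.1
  have hfin := fin_fibre hT2 hLDEX hACT hDENSE f x hx
  set T : Finset (P1B K) := hfin.toFinset with hTdef
  have hTm : ∀ y, y ∈ T ↔ f.act y = (x : P1B K) := by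
    intro y
    rw [hTdef, Set.Finite.mem_toFinset]
    rfl
  have hpush : Pool.Agent.W95.BK.pushFun f φ (x : P1B K) = ∑ y ∈ T, (localDeg f y : ℝ) * φ y := by
    unfold Pool.Agent.W95.BK.pushFun
    rw [finsum_mem_eq_finite_toFinset_sum _ hfin]
  obtain ⟨V, hV1, hV2⟩ := T.finite_toSet.t2_separation
  rw [Metric.tendsto_nhds]
  intro ε hε
  set δ : ℝ := ε / (f.d + 1) with hδ
  have hd0 : (0 : ℝ) < (f.d : ℝ) + 1 := by positivity
  have hδ0 : 0 < δ := div_pos hε hd0
  obtain ⟨U, hU1, hU2⟩ := exists_nbhds hLDEX hACT f x hx T (fun y hy => (hTm y).1 hy)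
    (fun y => V y ∩ {w | |φ w - φ y| < δ}) (by
      intro y
      refine inter_mem ((hV1 y).2.mem_nhds (hV1 y).1) ?_
      have h1 := (φ.continuous.tendsto y)
      have h2 := Metric.tendsto_nhds.1 h1 δ hδ0
      filter_upwards [h2] with w hw
      rwa [Real.dist_eq] at hw)
  have hdis : ∀ i ∈ T, ∀ j ∈ T, i ≠ j → Disjoint (U i) (U j) := by
    intro i hi j hj hij
    exact Set.disjoint_of_subset ((hU1 i hi).2.1.trans Set.inter_subset_left)
      ((hU1 j hj).2.1.trans Set.inter_subset_left) (hV2 hi hj hij)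
  set C : Set (P1B K) := (⋃ y ∈ T, interior (U y))ᶜ with hC
  have hCcl : IsClosed C := by
    rw [hC, isClosed_compl_iff]
    exact isOpen_biUnion fun y _ => isOpen_interior
  have hCc : IsCompact C := hCcl.isCompact
  have him : IsClosed (f.act '' C) := (hCc.image (hACTC K f)).isClosed
  have hxn : (x : P1B K) ∉ f.act '' C := by
    rintro ⟨c, hc, hcx⟩
    apply hc
    have hcT : c ∈ T := (hTm c).2 hcx
    exact Set.mem_biUnion hcT (mem_interior_iff_mem_nhds.2 (hU1 c hcT).1)
  have hev : ∀ᶠ b in toward (x : P1B K), ((cl b : BA K) : P1B K) ∉ f.act '' C := by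
    have h1 : (f.act '' C)ᶜ ∈ 𝓝 (x : P1B K) := him.isOpen_compl.mem_nhds hxn
    exact preimage_mem_comap h1
  filter_upwards [hev, hU2] with b hb1 hb2
  have hcov : ∀ w ∈ fib f b, ∃ y ∈ T, w ∈ U y := by
    intro w hw
    have h1 := (hACT K f).2.2.2.1 b w hw
    have h2 : w ∉ C := fun h => hb1 ⟨w, h, h1⟩
    rw [hC, Set.mem_compl_iff, not_not] at h2
    obtain ⟨y, hy, hwy⟩ := Set.mem_iUnion₂.1 h2
    exact ⟨y, hy, interior_subset hwy⟩
  classical
  have e1 := part T U hdis φ (fib f b) hcov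
  have e2 : ∀ y ∈ T, |((Multiset.filter (fun w => w ∈ U y) (fib f b)).map φ).sum -
      (localDeg f y : ℝ) * φ y| ≤ (localDeg f y : ℝ) * δ := by
    intro y hy
    have h1 : (Multiset.filter (fun w => w ∈ U y) (fib f b)).card = localDeg f y := by
      have := hb2 y hy
      unfold cnt at this
      exact this
    set s := Multiset.filter (fun w => w ∈ U y) (fib f b) with hs
    have h2 : ∀ w ∈ s, |φ w - φ y| ≤ δ := by
      intro w hw
      rw [hs, Multiset.mem_filter] at hw
      exact ((hU1 y hy).2.1 hw.2).2.le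
    rw [← h1]
    clear_value s
    clear h1 hs
    induction s using Multiset.induction_on with
    | empty => simp
    | cons w s ih =>
      have h3 := ih (fun v hv => h2 v (Multiset.mem_cons_of_mem hv))
      have h4 := h2 w (Multiset.mem_cons_self w s)
      rw [Multiset.map_cons, Multiset.sum_cons, Multiset.card_cons]
      push_cast
      have : φ w + (s.map φ).sum - ((s.card : ℝ) + 1) * φ y =
          (φ w - φ y) + ((s.map φ).sum - (s.card : ℝ) * φ y) := by ring
      rw [this]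
      refine (abs_add_le _ _).trans ?_
      linarith
  have e3 : (∑ y ∈ T, (localDeg f y : ℝ)) ≤ f.d := by
    have h1 := part_le T U hdis (fib f b)
    rw [(hACT K f).2.2.2.2 b] at h1
    have h2 : ∑ y ∈ T, localDeg f y ≤ f.d := by
      refine le_trans (le_of_eq ?_) h1
      refine Finset.sum_congr rfl fun y hy => ?_
      have := hb2 y hy
      unfold cnt at this
      rw [← this]
    exact_mod_cast h2
  rw [Real.dist_eq, hpush, e1, ← Finset.sum_sub_distrib]
  calc |∑ y ∈ T, (((Multiset.filter (fun w => w ∈ U y) (fib f b)).map φ).sum -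
      (localDeg f y : ℝ) * φ y)|
      ≤ ∑ y ∈ T, (localDeg f y : ℝ) * δ :=
        (Finset.abs_sum_le_sum_abs _ _).trans (Finset.sum_le_sum e2)
    _ = (∑ y ∈ T, (localDeg f y : ℝ)) * δ := by rw [Finset.sum_mul]
    _ ≤ f.d * δ := mul_le_mul_of_nonneg_right e3 hδ0.le
    _ < ε := by
      rw [hδ]
      have : (f.d : ℝ) * (ε / (f.d + 1)) = ε * (f.d / (f.d + 1)) := by ring
      rw [this]
      have h2 : (f.d : ℝ) / (f.d + 1) < 1 := by
        rw [div_lt_one hd0]
        linarith
      nlinarith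

end Pool.Agent.W55.BK.T1
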